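import Pool.Agent.Lib.MP_c171f5_pr.AM.Main

set_option autoImplicit false

/-!
# Bounded degree and short circuits everywhere: the walk is trapped

In particular this holds for all infinite quasi-transitive graphs which are not trees.
-/

namespace Pool.Agent.Results.MP_c171f5_pr.DenseCircuits

open MeasureTheory Set Pool.Agent.Lib.MP_c171f5_pr.AM

universe u w

theorem result {V : Type u} [Infinite V] (G : SimpleGraph V) [G.LocallyFinite] (hG : G.Connected)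
    (h : (∃ D L : ℕ, ∀ x, G.degree x ≤ D ∧
        ∃ (l : ℕ) (u : ℕ → V), IsCircuit G l u ∧ l ≤ L ∧ G.dist x (u 0) ≤ L) ∨
      ((∃ R : Finset V, ∀ x, ∃ r ∈ R, ∃ φ : G ≃g G, φ r = x) ∧ ∃ (l : ℕ) (u : ℕ → V), IsCircuit G l u))
    (β : ℝ) (hβ : 0 < β) (v : V) (Ω : Type w) (_ : MeasurableSpace Ω) (μ : Measure Ω) (X : ℕ → Ω → V)
    (hX : IsWalk G β v μ X) :
    ∀ᵐ ω ∂μ, Trap G (fun n => X n ω) := by
  obtain ⟨-, h2, h3, -, -⟩ := walk_main G hG β hβ v μ X hX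
  rcases h with ⟨D, L, h⟩ | ⟨h, h'⟩
  · refine h2 ⟨D, L, fun x _ => ⟨(h x).1, ?_⟩⟩
    obtain ⟨l, u, hu, hl, hd⟩ := (h x).2
    exact ⟨l, u, hu, hl, fun _ _ => mem_univ _, hd⟩
  · exact h3 h h'

end Pool.Agent.Results.MP_c171f5_pr.DenseCircuits
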