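import Pool.Agent.Lib.MP_c171f5_pr.AM.Main

set_option autoImplicit false

/-!
# Every graph: outside of Trap the crossing numbers lead out of every finite set

For every infinite, connected, locally finite graph, every `β > 0` and every start vertex the walk is almost surely
trapped in a circuit, or for every finite set `A` and every `M`, at all late visits to `A`, every path without
backtracking from the present vertex which uses only edges preferred up to `M` leaves `A` within `|A|` steps.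
-/

namespace Pool.Agent.Results.MP_c171f5_pr.GreedyPaths

open MeasureTheory Set Pool.Agent.Lib.MP_c171f5_pr.AM

universe u w

/-- `f` is a route in `S`: it maps `S` to itself along edges of `G`, and never goes back at once. -/
def Route {V : Type u} (G : SimpleGraph V) (S : Finset V) (f : V → V) : Prop :=
  ∀ y ∈ S, f y ∈ S ∧ G.Adj y (f y) ∧ f (f y) ≠ y

theorem one_set {V : Type u} [Countable V] [MeasurableSpace V] [DiscreteMeasurableSpace V]
    {G : SimpleGraph V} [G.LocallyFinite] {β : ℝ} {v : V} {ν : Measure (ℕ → V)}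
    (hν : IsLaw G β v ν) (hβ : 0 < β) (A : Finset V) (M : ℕ) :
    ∀ᵐ x ∂ν, Trap G x ∨ ∃ N, ∀ n ≥ N, ∀ (S : Finset V) (f : V → V), S ⊆ A → x n ∈ S → Route G S f →
      ∃ y ∈ S, ∃ z, G.Adj y z ∧ cr x n y (f y) + M < cr x n y z := by
  classical
  set D : ℕ := A.sup (fun y => G.degree y) with hDdef
  have hD : ∀ y ∈ A, G.degree y ≤ D := fun y hy =>
    Finset.le_sup (f := fun y => G.degree y) hy
  refine ae_of_levy hν (fun x => Trap G x ∨ ∃ N, ∀ n ≥ N, ∀ (S : Finset V) (f : V → V), S ⊆ A →
      x n ∈ S → Route G S f → ∃ y ∈ S, ∃ z, G.Adj y z ∧ cr x n y (f y) + M < cr x n y z)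
    (fun x n => ∃ (S : Finset V) (f : V → V), S ⊆ A ∧ x n ∈ S ∧ Route G S f ∧
      ∀ y ∈ S, ∀ z, G.Adj y z → cr x n y z ≤ cr x n y (f y) + M)
    ?_ ?_ (dl_pos β A.card D M) ?_
  · rintro x y n hxy ⟨S, f, h1, h2, h3, h4⟩
    refine ⟨S, f, h1, by rw [← hxy n le_rfl]; exact h2, h3, fun a ha z hz => ?_⟩
    rw [← cr_congr hxy, ← cr_congr hxy]
    exact h4 a ha z hz
  · intro x hQ _ _ N
    by_contra hcon
    refine hQ (Or.inr ⟨N, fun n hn S f hS hx hf => ?_⟩)
    by_contra hcon2
    refine hcon ⟨n, hn, S, f, hS, hx, hf, fun y hy z hz => ?_⟩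
    by_contra hlt
    exact hcon2 ⟨y, hy, z, hz, not_le.1 hlt⟩
  · rintro x hQ hx0 hpath n ⟨S, f, hSA, hxS, hf, hgood⟩
    refine ⟨NoDev S f (fun _ _ => True) (∅ : Set V) n, measurableSet_noDev _ _ _ _ _, ?_, ?_⟩
    · intro y hQy hypath hyc hyN
      have hstep : ∀ k, n ≤ k → y k ∈ S → y (k + 1) = f (y k) := by
        intro k hk hkS
        by_contra hne
        exact hyN k hk (fun j _ _ => Set.notMem_empty _) ⟨hkS, trivial, hne⟩
      have hSk : ∀ k, n ≤ k → y k ∈ S := by
        intro k hk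
        induction k, hk using Nat.le_induction with
        | base => rw [hyc n le_rfl]; exact hxS
        | succ k hk ih =>
          rw [hstep k hk ih]
          exact (hf _ ih).1
      exact hQy (Or.inl (trap_of_nxt (fun y hy _ => (hf y hy).2.2) hypath hSk
        (fun k hk => hstep k hk (hSk k hk))))
    · have h1 := hazard hν hβ (S := S) (nxt := f) (rel := fun _ _ => True) (E := (∅ : Set V)) (K := M)
        (D := D) (p := x) (n := n)
        (fun y _ => Set.notMem_empty _) (fun y hy => (hf y hy).2.1) (fun y hy => Or.inl (hf y hy).1)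
        (fun y hy _ => ⟨trivial, (hf y hy).2.2⟩) (fun y hy => hD y (hSA hy))
        (fun y hy z hz _ => hgood y hy z hz)
      refine le_trans ?_ h1
      gcongr
      unfold dl
      apply Real.exp_le_exp.2
      have hc : 0 ≤ (D : ℝ) * Real.exp (β * M) / (1 - Real.exp (-β)) := by
        have h2 : Real.exp (-β) < 1 := by
          rw [Real.exp_lt_one_iff]
          linarith
        exact div_nonneg (by positivity) (by linarith)
      have hcard : (S.card : ℝ) ≤ A.card := by
        exact_mod_cast Finset.card_le_card hSA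
      have := mul_le_mul_of_nonneg_right hcard hc
      linarith

theorem route_of_path {V : Type u} {G : SimpleGraph V} {A : Finset V} {y : ℕ → V}
    (hA : ∀ i ≤ A.card, y i ∈ A) (hadj : ∀ i < A.card, G.Adj (y i) (y (i + 1)))
    (hnb : ∀ i, i + 2 ≤ A.card → y (i + 2) ≠ y i) :
    ∃ (S : Finset V) (f : V → V), S ⊆ A ∧ y 0 ∈ S ∧ Route G S f ∧
      ∀ a ∈ S, ∃ i < A.card, a = y i ∧ f a = y (i + 1) := by
  classical
  have hex : ∃ j, j ≤ A.card ∧ ∃ i < j, y i = y j := by
    obtain ⟨i, hi, j, hj, hij, he⟩ := Finset.exists_ne_map_eq_of_card_lt_of_maps_to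
      (s := Finset.range (A.card + 1)) (t := A) (by simp) (f := y)
      (fun i hi => hA i (by have := Finset.mem_range.1 hi; omega))
    rw [Finset.mem_range] at hi hj
    rcases lt_or_gt_of_ne hij with h | h
    · exact ⟨j, by omega, i, h, he⟩
    · exact ⟨i, by omega, j, h, he.symm⟩
  obtain ⟨j, hj, hmin⟩ : ∃ j, (j ≤ A.card ∧ ∃ i < j, y i = y j) ∧
      ∀ m < j, ¬ (m ≤ A.card ∧ ∃ i < m, y i = y m) :=
    ⟨Nat.find hex, Nat.find_spec hex, fun m hm => Nat.find_min hex hm⟩
  obtain ⟨hjA, i, hij, hyi⟩ := hj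
  have hinj : ∀ a < j, ∀ b < j, y a = y b → a = b := by
    intro a ha b hb hab
    by_contra hne
    rcases lt_or_gt_of_ne hne with h | h
    · exact hmin b hb ⟨by omega, a, h, hab⟩
    · exact hmin a ha ⟨by omega, b, h, hab.symm⟩
  obtain ⟨f, hf⟩ : ∃ f : V → V, ∀ k < j, f (y k) = y (k + 1) := by
    refine ⟨fun a => if h : ∃ k, k < j ∧ y k = a then y (h.choose + 1) else a, fun k hk => ?_⟩
    have h : ∃ m, m < j ∧ y m = y k := ⟨k, hk, rfl⟩
    have h1 := h.choose_spec
    have h2 : h.choose = k := hinj _ h1.1 _ hk h1.2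
    show (if h : ∃ m, m < j ∧ y m = y k then y (h.choose + 1) else y k) = _
    rw [dif_pos h, h2]
  set S : Finset V := (Finset.range j).image y with hS
  have hSmem : ∀ a, a ∈ S ↔ ∃ k, k < j ∧ y k = a := by
    intro a
    simp [hS]
  refine ⟨S, f, ?_, (hSmem _).2 ⟨0, by omega, rfl⟩, ?_, ?_⟩
  · intro a ha
    obtain ⟨k, hk, rfl⟩ := (hSmem a).1 ha
    exact hA k (by omega)
  · intro a ha
    obtain ⟨k, hk, rfl⟩ := (hSmem a).1 ha
    have hk1 : G.Adj (y k) (y (k + 1)) := hadj k (by omega)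
    rw [hf k hk]
    rcases Nat.lt_or_ge (k + 1) j with h | h
    · refine ⟨(hSmem _).2 ⟨k + 1, h, rfl⟩, hk1, ?_⟩
      rw [hf _ h]
      exact hnb k (by omega)
    · have hkj : k + 1 = j := by omega
      have h2 : y (k + 1) = y i := by rw [hkj, hyi]
      refine ⟨(hSmem _).2 ⟨i, hij, h2.symm⟩, hk1, ?_⟩
      rw [h2, hf i hij]
      intro he
      rcases Nat.lt_or_ge (i + 1) j with h3 | h3
      · have h4 := hinj _ h3 _ hk he
        have h5 : i + 2 = j := by omega
        exact hnb i (by omega) (by rw [h5, hyi])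
      · have h4 : i = k := by omega
        subst h4
        exact hk1.ne h2.symm
  · intro a ha
    obtain ⟨k, hk, rfl⟩ := (hSmem a).1 ha
    exact ⟨k, by omega, rfl, hf k hk⟩

/-- For every infinite connected locally finite graph, almost surely the walk is trapped in a circuit, or for every
finite `A` and every `M`, at all late visits to `A` every path without backtracking from the present vertex, which uses
only edges preferred up to `M`, leaves `A` within `|A|` steps. -/
theorem result {V : Type u} [Infinite V] (G : SimpleGraph V) [G.LocallyFinite] (hG : G.Connected)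
    (β : ℝ) (hβ : 0 < β) (v : V) (Ω : Type w) (_ : MeasurableSpace Ω) (μ : Measure Ω) (X : ℕ → Ω → V)
    (hX : IsWalk G β v μ X) :
    ∀ᵐ ω ∂μ, Trap G (fun n => X n ω) ∨
      ∀ (A : Finset V) (M : ℕ), ∃ N, ∀ n ≥ N, ∀ y : ℕ → V, y 0 = X n ω →
        (∀ i < A.card, G.Adj (y i) (y (i + 1)) ∧ ∀ z, G.Adj (y i) z →
          cr (fun n => X n ω) n (y i) z ≤ cr (fun n => X n ω) n (y i) (y (i + 1)) + M) →
        (∀ i, i + 2 ≤ A.card → y (i + 2) ≠ y i) → ∃ i ≤ A.card, y i ∉ A := by
  classical
  have hcount : Countable V := countable_of_connected hG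
  let _ : MeasurableSpace V := ⊤
  have : DiscreteMeasurableSpace V := ⟨fun _ => trivial⟩
  have key : ∀ᵐ ω ∂μ, ∀ (A : Finset V) (M : ℕ), Trap G (fun n => X n ω) ∨ ∃ N, ∀ n ≥ N,
      ∀ (S : Finset V) (f : V → V), S ⊆ A → X n ω ∈ S → Route G S f → ∃ y ∈ S, ∃ z, G.Adj y z ∧
          cr (fun n => X n ω) n y (f y) + M < cr (fun n => X n ω) n y z := by
    rw [ae_all_iff]
    intro A
    rw [ae_all_iff]
    intro M
    exact walk_ae G hX (Q := fun x => Trap G x ∨ ∃ N, ∀ n ≥ N, ∀ (S : Finset V) (f : V → V), S ⊆ A →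
      x n ∈ S → Route G S f → ∃ y ∈ S, ∃ z, G.Adj y z ∧ cr x n y (f y) + M < cr x n y z)
      (fun ν hν => one_set hν hβ A M)
  filter_upwards [key] with ω hω
  by_cases hT : Trap G (fun n => X n ω)
  · exact Or.inl hT
  · refine Or.inr fun A M => ?_
    obtain ⟨N, hN⟩ := (hω A M).resolve_left hT
    refine ⟨N, fun n hn y hy0 hy hnb => ?_⟩
    by_contra hcon
    have hA : ∀ i ≤ A.card, y i ∈ A := by
      intro i hi
      by_contra h
      exact hcon ⟨i, hi, h⟩
    obtain ⟨S, f, hSA, h0, hf, hpath⟩ := route_of_path hA (fun i hi => (hy i hi).1) hnb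
    obtain ⟨a, ha, z, hz, hlt⟩ := hN n hn S f hSA (by rw [← hy0]; exact h0) hf
    obtain ⟨i, hi, rfl, hfi⟩ := hpath a ha
    rw [hfi] at hlt
    exact absurd ((hy i hi).2 z hz) (not_le.2 hlt)

end Pool.Agent.Results.MP_c171f5_pr.GreedyPaths
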