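import Pool.Agent.Lib.MP_c171f5_pr.AM.Main

set_option autoImplicit false

/-!
# Trapped or escaping: graphs glued from finite pieces and pieces with dense short circuits

`G` is an infinite, connected, locally finite graph, `β > 0` and `v` is any start vertex. If every edge of `G` lies
in a tame piece, or if `G` is a tree, then the directed edge reinforced random walk is almost surely trapped in
a circuit or escapes to infinity. (The first part says that the walk exists.)
-/

namespace Pool.Agent.Results.MP_c171f5_pr.TrapOrEscape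

open MeasureTheory Set Pool.Agent.Lib.MP_c171f5_pr.AM

universe u w

theorem result {V : Type u} [Infinite V] (G : SimpleGraph V) [G.LocallyFinite] (hG : G.Connected)
    (β : ℝ) (hβ : 0 < β) (v : V) :
    (∃ (Ω : Type u) (_ : MeasurableSpace Ω) (μ : Measure Ω) (X : ℕ → Ω → V), IsWalk G β v μ X) ∧
    (((∀ x y, G.Adj x y → ∃ H : Set V, x ∈ H ∧ y ∈ H ∧ Tame G H) ∨ ∀ l u, ¬ IsCircuit G l u) →
      ∀ (Ω : Type w) (_ : MeasurableSpace Ω) (μ : Measure Ω) (X : ℕ → Ω → V), IsWalk G β v μ X →
        ∀ᵐ ω ∂μ, Trap G (fun n => X n ω) ∨ Esc G (fun n => X n ω)) := by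
  refine ⟨walk_exists G hG β v, ?_⟩
  rintro h Ω _ μ X hX
  obtain ⟨h1, -, -, h4, -⟩ := walk_main G hG β hβ v μ X hX
  rcases h with h | h
  · exact h1 h
  · filter_upwards [h4 h] with ω hω
    exact Or.inr hω

end Pool.Agent.Results.MP_c171f5_pr.TrapOrEscape
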