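import Pool.Agent.Lib.MP_c171f5_pr.AM.Main

set_option autoImplicit false

/-!
# Every graph: the walk is trapped or unbounded

For every infinite, connected, locally finite graph, every `β > 0` and every start vertex the walk is almost surely
trapped in a circuit or its distance from the start has upper limit infinity.
-/

namespace Pool.Agent.Results.MP_c171f5_pr.TrapOrUnbounded

open MeasureTheory Set Pool.Agent.Lib.MP_c171f5_pr.AM

universe u w

theorem result {V : Type u} [Infinite V] (G : SimpleGraph V) [G.LocallyFinite] (hG : G.Connected)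
    (β : ℝ) (hβ : 0 < β) (v : V) (Ω : Type w) (_ : MeasurableSpace Ω) (μ : Measure Ω) (X : ℕ → Ω → V)
    (hX : IsWalk G β v μ X) :
    ∀ᵐ ω ∂μ, Trap G (fun n => X n ω) ∨ ∀ r N : ℕ, ∃ n ≥ N, r ≤ G.dist (X n ω) (X 0 ω) := by
  obtain ⟨-, -, -, -, h5⟩ := walk_main G hG β hβ v μ X hX
  have h6 : ∀ᵐ ω ∂μ, ∀ r : ℕ, Trap G (fun n => X n ω) ∨
      ∀ N, ∃ n ≥ N, X n ω ∉ {y | G.dist v y ≤ r} :=
    ae_all_iff.2 fun r => h5 _ (ball_finite hG v r)
  filter_upwards [h6, hX.start] with ω hω h0
  by_cases hT : Trap G (fun n => X n ω)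
  · exact Or.inl hT
  · refine Or.inr fun r N => ?_
    obtain ⟨n, hn, hn2⟩ := (hω r).resolve_left hT N
    refine ⟨n, hn, ?_⟩
    have hn3 : ¬ G.dist v (X n ω) ≤ r := hn2
    rw [not_le, SimpleGraph.dist_comm] at hn3
    rw [h0]
    exact hn3.le

end Pool.Agent.Results.MP_c171f5_pr.TrapOrUnbounded
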